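import Pool.Agent.Run7.h478.EB.Line

/-!
# Uniqueness of the bond statistics of Edwards–Anderson ground states for generic couplings

Let `U` be a random field on the bonds of `ℤ^d` with values in a compact metrizable space `S`, for
instance i.i.d., and take the couplings `J e = F (U e)` with a continuous function `F`. For all `F` in a
dense `Gδ` set of continuous functions, all translation-invariant random ground states have the same
joint statistics of `U e` and of the bond variable `σ x σ y`. The same holds inside every closed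
subspace of continuous functions (for instance the odd functions on `[-1, 1]`, which give symmetric
laws for symmetric `U`). On every line `F + t G` the average of `G (U e) σ x σ y` is monotone in `t`,
and it is the same for all random ground states for all but countably many `t`.
-/

set_option autoImplicit false

open MeasureTheory

namespace Pool.Agent.Results.MP_37ff18_mp.BondStatistics

open Pool.Agent.Run7.H478.EB

theorem result {d : ℕ} {S : Type} [TopologicalSpace S] [CompactSpace S]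
    [TopologicalSpace.MetrizableSpace S] [MeasurableSpace S] [BorelSpace S]
    (ν : Measure (Bond d → S)) :
    (∃ 𝒢 : Set C(S, ℝ), IsGδ 𝒢 ∧ Dense 𝒢 ∧ ∀ F ∈ 𝒢,
      ∀ κ κ' : Measure ((Bond d → S) × (Site d → ℝ)),
        IsRandomGroundState ν F κ → IsRandomGroundState ν F κ' →
          ∀ A : Set S, MeasurableSet A → density κ A = density κ' A) ∧
    (∀ X : Submodule ℝ C(S, ℝ), IsClosed (X : Set C(S, ℝ)) →
      ∃ 𝒢 : Set X, IsGδ 𝒢 ∧ Dense 𝒢 ∧ ∀ F ∈ 𝒢,
        ∀ κ κ' : Measure ((Bond d → S) × (Site d → ℝ)),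
          IsRandomGroundState ν (F : C(S, ℝ)) κ → IsRandomGroundState ν (F : C(S, ℝ)) κ' →
            ∀ G ∈ X,
              ∑ i : Fin d, ∫ p, G (p.1 (0, i)) * (p.2 0 * p.2 (Pi.single i (1 : ℤ))) ∂κ =
                ∑ i : Fin d, ∫ p, G (p.1 (0, i)) * (p.2 0 * p.2 (Pi.single i (1 : ℤ))) ∂κ') ∧
    ∀ F G : C(S, ℝ),
      (∀ (t t' : ℝ) (κ κ' : Measure ((Bond d → S) × (Site d → ℝ))), t < t' →
        IsRandomGroundState ν (F + t • G : C(S, ℝ)) κ →
          IsRandomGroundState ν (F + t' • G : C(S, ℝ)) κ' →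
            ∑ i : Fin d, ∫ p, G (p.1 (0, i)) * (p.2 0 * p.2 (Pi.single i (1 : ℤ))) ∂κ ≤
              ∑ i : Fin d, ∫ p, G (p.1 (0, i)) * (p.2 0 * p.2 (Pi.single i (1 : ℤ))) ∂κ') ∧
      ∃ N : Set ℝ, N.Countable ∧ ∀ t ∉ N, ∀ κ κ' : Measure ((Bond d → S) × (Site d → ℝ)),
        IsRandomGroundState ν (F + t • G : C(S, ℝ)) κ →
          IsRandomGroundState ν (F + t • G : C(S, ℝ)) κ' →
            ∑ i : Fin d, ∫ p, G (p.1 (0, i)) * (p.2 0 * p.2 (Pi.single i (1 : ℤ))) ∂κ =
              ∑ i : Fin d, ∫ p, G (p.1 (0, i)) * (p.2 0 * p.2 (Pi.single i (1 : ℤ))) ∂κ' := by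
  refine ⟨?_, ?_, ?_⟩
  · obtain ⟨𝒢, h1, h2, h3⟩ := full_generic ν
    exact ⟨𝒢, h1, h2, fun F hF κ κ' hκ hκ' A hA =>
      dens_eq hκ.stat hκ'.stat (h3 F hF κ κ' hκ hκ') hA⟩
  · intro X hX
    obtain ⟨𝒢, h1, h2, h3⟩ := sub_generic ν X hX
    refine ⟨𝒢, h1, h2, fun F hF κ κ' hκ hκ' G hG => ?_⟩
    rw [← u_eq, ← u_eq]
    exact h3 F hF κ κ' hκ hκ' G hG
  · intro F G
    constructor
    · intro t t' κ κ' htt hκ hκ'
      rw [← u_eq, ← u_eq]
      exact val_mono htt ⟨κ, hκ, rfl⟩ ⟨κ', hκ', rfl⟩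
    · obtain ⟨N, hN, h⟩ := line_unique ν F G
      refine ⟨N, hN, fun t ht κ κ' hκ hκ' => ?_⟩
      rw [← u_eq, ← u_eq]
      exact h t ht κ κ' hκ hκ'

end Pool.Agent.Results.MP_37ff18_mp.BondStatistics
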