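import Pool.Agent.Run7.h472.EA.D

/-!
# Edwards-Anderson ground states on `ℤ^d`: typical influence of the couplings far away

For iid couplings with a symmetric atomless law, `d ≥ 2`, the couplings outside the box of radius
`r` are replaced by independent ones. The probability `p i r` that the ground state bond `(0, i)`
is changed is at least `1 / (16 (r + 1))`, and the pair of ground states is unique if and only if
`p i r → 0`.
-/

set_option autoImplicit false

open MeasureTheory Filter Topology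

namespace Pool.Agent.Results.MP_37ff18_mp.FarCouplings

/-- `σ` is an infinite-volume ground state for the couplings `J`; the bond `(v, i)` joins `v` and
`v + e_i`. Every change at finitely many sites (at least one) increases the energy
`-∑ J_e σ σ` (the sum of the differences over all bonds is a finite sum). -/
def IsGroundState {d : ℕ} (J : (Fin d → ℤ) × Fin d → ℝ) (σ : (Fin d → ℤ) → ℝ) : Prop :=
  (∀ x, σ x = 1 ∨ σ x = -1) ∧
  ∀ ρ : (Fin d → ℤ) → ℝ, (∀ x, ρ x = 1 ∨ ρ x = -1) → {x | ρ x ≠ σ x}.Finite → ρ ≠ σ →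
    0 < ∑ᶠ e : (Fin d → ℤ) × Fin d,
      J e * (σ e.1 * σ (e.1 + (Pi.single e.2 (1 : ℤ) : Fin d → ℤ))
        - ρ e.1 * ρ (e.1 + (Pi.single e.2 (1 : ℤ) : Fin d → ℤ)))

/-- The bond `f` has an end in the box of radius `r` around the origin. -/
def Near {d : ℕ} (r : ℕ) (f : (Fin d → ℤ) × Fin d) : Prop :=
  (∀ k, |f.1 k| ≤ r) ∨ ∀ k, |(f.1 + (Pi.single f.2 (1 : ℤ) : Fin d → ℤ)) k| ≤ r

open Classical in
/-- The couplings `J` on the bonds with an end in the box of radius `r` and `J'` on all others. -/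
noncomputable def mix {d : ℕ} (r : ℕ) (J J' : (Fin d → ℤ) × Fin d → ℝ) :
    (Fin d → ℤ) × Fin d → ℝ := fun f => if Near r f then J f else J' f

/-- The couplings far away matter on the bond between `0` and `e_i`: some ground state for the
couplings `J = (W ·).1` and some ground state for `J` with its couplings away from the box of
radius `r` replaced by those of `J' = (W ·).2` disagree on this bond. (If both have a unique pair of
ground states: these two pairs disagree on the bond.) -/
def FarMatters {d : ℕ} (i : Fin d) (r : ℕ) (W : (Fin d → ℤ) × Fin d → ℝ × ℝ) : Prop :=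
  ∃ σ τ : (Fin d → ℤ) → ℝ, IsGroundState (fun f => (W f).1) σ ∧
    IsGroundState (mix r (fun f => (W f).1) (fun f => (W f).2)) τ ∧
    σ 0 * σ (Pi.single i (1 : ℤ)) ≠ τ 0 * τ (Pi.single i (1 : ℤ))

/-- The rule `F` is wrong for the bond between `0` and `e_i`: for some ground state `σ` of `J` the
product of the spins at the two ends is not `F J`. -/
def Wrong {d : ℕ} (i : Fin d) (F : ((Fin d → ℤ) × Fin d → ℝ) → ℝ)
    (J : (Fin d → ℤ) × Fin d → ℝ) : Prop :=
  ∃ σ : (Fin d → ℤ) → ℝ, IsGroundState J σ ∧ σ 0 * σ (Pi.single i (1 : ℤ)) ≠ F J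

/-- The rule `F` depends only on the couplings of the bonds with an end in the box of radius
`r`. -/
def LocalRule {d : ℕ} (r : ℕ) (F : ((Fin d → ℤ) × Fin d → ℝ) → ℝ) : Prop :=
  ∀ J J' : (Fin d → ℤ) × Fin d → ℝ, (∀ f, Near r f → J f = J' f) → F J = F J'

open Pool.Agent.R239.EA Pool.Agent.Run7.h472.EA

lemma ga_iff {d : ℕ} {J : (Fin d → ℤ) × Fin d → ℝ} {σ : (Fin d → ℤ) → ℝ} :
    IsGroundState J σ ↔ GA J σ := by
  rw [GA_iff]
  rfl

lemma near_iff {d : ℕ} {r : ℕ} {f : (Fin d → ℤ) × Fin d} :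
    Near r f ↔ f ∈ tb (0 : Fin d → ℤ) r := by
  rw [mem_tb, mem_bx', mem_bx']
  unfold Near
  simp only [Pi.zero_apply, sub_zero]
  rfl

lemma mix_eq {d : ℕ} (i : Fin d) (r : ℕ) (W : (Fin d → ℤ) × Fin d → ℝ × ℝ) :
    mix r (fun f => (W f).1) (fun f => (W f).2) = hyb ((0 : Fin d → ℤ), i) r W := by
  funext f
  unfold mix hyb
  by_cases h : f ∈ tb (0 : Fin d → ℤ) r
  · rw [if_pos (near_iff.2 h), if_pos h]
  · rw [if_neg (fun h2 => h (near_iff.1 h2)), if_neg h]

lemma nx_zero {d : ℕ} (i : Fin d) : nx ((0 : Fin d → ℤ), i) = (Pi.single i (1 : ℤ)) := by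
  unfold nx u
  simp

lemma far_iff {d : ℕ} {i : Fin d} {r : ℕ} {W : (Fin d → ℤ) × Fin d → ℝ × ℝ} :
    FarMatters i r W ↔ W ∈ DD ((0 : Fin d → ℤ), i) r := by
  constructor
  · rintro ⟨σ, τ, h1, h2, h3⟩
    refine ⟨σ, τ, ga_iff.1 h1, ?_, ?_⟩
    · rw [← mix_eq i r W]
      exact ga_iff.1 h2
    · rw [edge_iff h1.1 h2.1, nx_zero]
      exact h3
  · rintro ⟨σ, τ, h1, h2, h3⟩
    rw [edge_iff (h1 0).1 (h2 0).1, nx_zero] at h3
    rw [← mix_eq i r W] at h2
    exact ⟨σ, τ, ga_iff.2 h1, ga_iff.2 h2, h3⟩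

/-- Let the couplings `J` on the bonds of `ℤ^d`, `d ≥ 2`, be iid with a symmetric atomless law `μ`,
and let `J'` be an independent copy of `J`. Let `p i r` be the probability that the couplings
outside the box of radius `r` matter on the bond between `0` and `e_i` when `J` is replaced there
by `J'` (a measurable event, (1)).

(2) `p i r` does not depend on the direction `i`, and `p i r ≥ 1 / (16 (r + 1))` for all `r`.

(3) Almost surely there is exactly one pair of ground states if and only if `p i r → 0` for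
`r → ∞`.

(4) Let `F` be a rule which depends only on the couplings of the bonds with an end in the box of
radius `r`. The probability that `F` is wrong for the bond between `0` and `e_i` is at least
`1 / (32 (r + 1))`. -/
theorem result (d : ℕ) (hd : 2 ≤ d) (μ : Measure ℝ) [IsProbabilityMeasure μ]
    (hμ : ∀ x, μ {x} = 0) (hsym : μ.map (fun x => -x) = μ) (p : Fin d → ℕ → ℝ)
    (hp : ∀ i r, p i r = (Measure.infinitePi fun _ : (Fin d → ℤ) × Fin d => μ.prod μ).real
      {W | FarMatters i r W}) (i : Fin d) :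
    (∀ r : ℕ, MeasurableSet {W : (Fin d → ℤ) × Fin d → ℝ × ℝ | FarMatters i r W}) ∧
    (∀ r : ℕ, (∀ j, p j r = p i r) ∧ 1 / (16 * ((r : ℝ) + 1)) ≤ p i r) ∧
    ((∀ᵐ J ∂(Measure.infinitePi fun _ : (Fin d → ℤ) × Fin d => μ),
        ∃ σ, IsGroundState J σ ∧ ∀ τ, IsGroundState J τ → τ = σ ∨ τ = -σ) ↔
      Tendsto (fun r => p i r) atTop (𝓝 0)) ∧
    (∀ (r : ℕ) (F : ((Fin d → ℤ) × Fin d → ℝ) → ℝ), LocalRule r F →
      1 / (32 * ((r : ℝ) + 1)) ≤
        (Measure.infinitePi fun _ : (Fin d → ℤ) × Fin d => μ).real {J | Wrong i F J}) := by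
  have hset : ∀ (i : Fin d) (r : ℕ), {W : (Fin d → ℤ) × Fin d → ℝ × ℝ | FarMatters i r W} =
      DD ((0 : Fin d → ℤ), i) r := by
    intro i r
    ext W
    exact far_iff
  have hp' : ∀ i r, p i r = (QQ μ d).real (DD ((0 : Fin d → ℤ), i) r) := by
    intro i r
    rw [hp i r, hset i r]
    rfl
  have h2 : ∀ r : ℕ, 1 ≤ (16 * ((r : ℝ) + 1)) * p i r := by
    intro r
    rw [hp' i r]
    exact main_all μ hd hμ hsym i r
  have heq : ∀ (r : ℕ) (j : Fin d), p j r = p i r := by
    intro r j
    rw [hp' i r, hp' j r]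
    unfold Measure.real
    rw [dd_eq μ j i r]
  refine ⟨fun r => ?_, fun r => ⟨heq r, ?_⟩, ?_, fun r F hF => ?_⟩
  · rw [hset i r]
    exact dd_meas _ _
  · have h3 : (0 : ℝ) < 16 * ((r : ℝ) + 1) := by positivity
    rw [div_le_iff₀ h3, mul_comm]
    exact h2 r
  · simp only [ga_iff]
    have h3 := uniq_dd (d := d) μ hd hμ
    have h4 : ∀ k : Fin d, Tendsto (fun r => p i r) atTop (𝓝 0) ↔
        Tendsto (fun r => QQ μ d (DD ((0 : Fin d → ℤ), k) r)) atTop (𝓝 0) := by
      intro k
      have h5 : (fun r => p i r) = fun r => (QQ μ d (DD ((0 : Fin d → ℤ), k) r)).toReal := by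
        funext r
        rw [← heq r k, hp' k r]
        rfl
      rw [h5]
      constructor
      · intro h
        have h6 := ENNReal.tendsto_ofReal h
        rw [ENNReal.ofReal_zero] at h6
        refine h6.congr fun n => ?_
        exact ENNReal.ofReal_toReal (measure_ne_top _ _)
      · intro h
        have h6 := (ENNReal.tendsto_toReal ENNReal.zero_ne_top).comp h
        rw [ENNReal.toReal_zero] at h6
        exact h6
    exact ⟨fun h => (h4 i).2 (h3.1 h i), fun h => h3.2 fun k => (h4 k).1 h⟩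
  · have h5 := rule_le μ i r F (fun J J' hJ => hF J J' (fun f hf => hJ f (near_iff.1 hf)))
    have h6 : {J : (Fin d → ℤ) × Fin d → ℝ | ∃ σ, GA J σ ∧
        σ ((0 : Fin d → ℤ), i).1 * σ (nx ((0 : Fin d → ℤ), i)) ≠ F J} = {J | Wrong i F J} := by
      ext J
      simp only [nx_zero, Set.mem_ofPred_eq]
      unfold Wrong
      simp only [ga_iff]
    rw [h6] at h5
    have h7 := ENNReal.toReal_mono (by
      have : Lw μ d {J | Wrong i F J} ≠ ⊤ := measure_ne_top _ _
      finiteness) h5
    rw [ENNReal.toReal_mul, ENNReal.toReal_ofNat] at h7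
    have h9 : p i r ≤ 2 * (Measure.infinitePi fun _ : (Fin d → ℤ) × Fin d => μ).real
        {J | Wrong i F J} := by
      rw [hp' i r]
      exact h7
    have h10 := h2 r
    have h8 : (0 : ℝ) < 32 * ((r : ℝ) + 1) := by positivity
    rw [div_le_iff₀ h8]
    have h11 : (0 : ℝ) < 16 * ((r : ℝ) + 1) := by positivity
    nlinarith

end Pool.Agent.Results.MP_37ff18_mp.FarCouplings
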