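import Pool.Agent.Run7.h654.EACut.Region

/-!
# Edwards-Anderson ground states on regions of `ℤ^d`: weak cuts force uniqueness

The sites are the points of `ℤ^d`; the bond `(v, i)` joins `v` and `v + e_i`, as in the frozen
statement of the problem.
-/

set_option autoImplicit false

open MeasureTheory

namespace Pool.Agent.Results.MP_37ff18_mp.WeakCuts

/-- A spin configuration on the region `R`: it is `1` or `-1` at the sites of `R`, and `0` at the
other sites (so that the bonds which leave `R` do not contribute to the energy). -/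
def IsConfiguration {d : ℕ} (R : Set (Fin d → ℤ)) (σ : (Fin d → ℤ) → ℝ) : Prop :=
  (∀ v ∈ R, σ v = 1 ∨ σ v = -1) ∧ ∀ v, v ∉ R → σ v = 0

/-- `σ` is an infinite-volume ground state on `R` for the couplings `J`: every change at finitely
many sites of `R` (at least one) increases the energy `- ∑ J (v, i) σ v σ (v + e_i)`. -/
def IsGroundState {d : ℕ} (R : Set (Fin d → ℤ)) (J : (Fin d → ℤ) × Fin d → ℝ)
    (σ : (Fin d → ℤ) → ℝ) : Prop :=
  IsConfiguration R σ ∧ ∀ ρ : (Fin d → ℤ) → ℝ, IsConfiguration R ρ →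
    {v | ρ v ≠ σ v}.Finite → ρ ≠ σ →
      0 < ∑ᶠ e : (Fin d → ℤ) × Fin d,
        J e * (σ e.1 * σ (e.1 + (Pi.single e.2 (1 : ℤ) : Fin d → ℤ))
          - ρ e.1 * ρ (e.1 + (Pi.single e.2 (1 : ℤ) : Fin d → ℤ)))

/-- The region `R` is connected: every nonempty part `D ≠ R` of `R` has a site which is a
nearest neighbour of a site of `R` outside `D`. -/
def IsConnected {d : ℕ} (R : Set (Fin d → ℤ)) : Prop :=
  ∀ D ⊆ R, D.Nonempty → D ≠ R → ∃ x ∈ D, ∃ y ∈ R \ D, ∃ i : Fin d,
    y = x + Pi.single i (1 : ℤ) ∨ x = y + Pi.single i (1 : ℤ)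

/-- The cut around `Λ` in `R`: the bonds of `R` with exactly one end in `Λ`. -/
def cut {d : ℕ} (R Λ : Set (Fin d → ℤ)) : Set ((Fin d → ℤ) × Fin d) :=
  {e | e.1 ∈ R ∧ e.1 + (Pi.single e.2 (1 : ℤ) : Fin d → ℤ) ∈ R ∧
    ¬ (e.1 ∈ Λ ↔ e.1 + (Pi.single e.2 (1 : ℤ) : Fin d → ℤ) ∈ Λ)}

/-- The couplings `J` have arbitrarily weak cuts in `R`: around every finite part `A` of `R` there
are finite cuts whose total absolute coupling is as small as one likes. -/
def HasWeakCuts {d : ℕ} (R : Set (Fin d → ℤ)) (J : (Fin d → ℤ) × Fin d → ℝ) : Prop :=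
  ∀ A : Finset (Fin d → ℤ), (A : Set (Fin d → ℤ)) ⊆ R → ∀ δ : ℝ, 0 < δ →
    ∃ Λ : Finset (Fin d → ℤ), A ⊆ Λ ∧ (Λ : Set (Fin d → ℤ)) ⊆ R ∧
      ∑ᶠ e ∈ cut R (Λ : Set (Fin d → ℤ)), |J e| ≤ δ

/-- **Theorem.** Let `R` be an infinite connected region of `ℤ^d` and let `μ` be a probability
measure on `ℝ` without atoms. For almost every realisation of i.i.d. couplings of law `μ`: if there
are finite cuts of arbitrarily small total coupling around every finite part of `R`, then there is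
exactly one pair `σ, -σ` of ground states on `R`. -/
theorem result {d : ℕ} (μ : Measure ℝ) [IsProbabilityMeasure μ] (hatom : ∀ x : ℝ, μ {x} = 0)
    (R : Set (Fin d → ℤ)) (hinf : R.Infinite) (hcon : IsConnected R) :
    ∀ᵐ J ∂(Measure.infinitePi fun _ : (Fin d → ℤ) × Fin d => μ),
      HasWeakCuts R J → ∃ σ : (Fin d → ℤ) → ℝ, {ρ | IsGroundState R J ρ} = {σ, -σ} :=
  Run7.h654.EACut.region μ hatom hinf hcon

end Pool.Agent.Results.MP_37ff18_mp.WeakCuts
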