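import Pool.Agent.Run7.h654.EACut.PinsP

/-!
# Edwards-Anderson ground states on wider horns in `ℤ^d`, for all laws

The sites are the points of `ℤ^(k + 1)`; the bond `(v, i)` joins `v` and `v + e_i`, as in the frozen
statement of the problem.
-/

set_option autoImplicit false

open MeasureTheory

namespace Pool.Agent.Results.MP_37ff18_mp.WiderHorns

/-- The horn: the points `v` of `ℤ^(k + 1)` with `v 0 ≥ 0` and `|v i| ≤ w (v 0)` for all `i ≠ 0`. -/
def horn (k : ℕ) (w : ℕ → ℕ) : Set (Fin (k + 1) → ℤ) :=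
  {v | 0 ≤ v 0 ∧ ∀ i : Fin k, |v i.succ| ≤ (w (v 0).toNat : ℤ)}

/-- A spin configuration on the region `R`: it is `1` or `-1` at the sites of `R`, and `0` at the
other sites (so that the bonds which leave `R` do not contribute to the energy). -/
def IsConfiguration {k : ℕ} (R : Set (Fin (k + 1) → ℤ)) (σ : (Fin (k + 1) → ℤ) → ℝ) : Prop :=
  (∀ v ∈ R, σ v = 1 ∨ σ v = -1) ∧ ∀ v, v ∉ R → σ v = 0

/-- `σ` is an infinite-volume ground state on `R` for the couplings `J`: every change at finitely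
many sites of `R` (at least one) increases the energy `- ∑ J (v, i) σ v σ (v + e_i)`. -/
def IsGroundState {k : ℕ} (R : Set (Fin (k + 1) → ℤ))
    (J : (Fin (k + 1) → ℤ) × Fin (k + 1) → ℝ) (σ : (Fin (k + 1) → ℤ) → ℝ) : Prop :=
  IsConfiguration R σ ∧ ∀ ρ : (Fin (k + 1) → ℤ) → ℝ, IsConfiguration R ρ →
    {v | ρ v ≠ σ v}.Finite → ρ ≠ σ →
      0 < ∑ᶠ e : (Fin (k + 1) → ℤ) × Fin (k + 1),
        J e * (σ e.1 * σ (e.1 + (Pi.single e.2 (1 : ℤ) : Fin (k + 1) → ℤ))
          - ρ e.1 * ρ (e.1 + (Pi.single e.2 (1 : ℤ) : Fin (k + 1) → ℤ)))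

/-- **Theorem.** Let `w` be a nondecreasing sequence of widths with
`w n ^ (k + 1) = o (log n)`, where `k ≥ 1`, and let `μ` be a symmetric probability measure on `ℝ`
without atoms. For almost every realisation of i.i.d. couplings of law `μ` on the bonds of
`ℤ^(k + 1)` there is exactly one pair `σ, -σ` of ground states on the horn of width `w`. -/
theorem result (k : ℕ) (hk : 1 ≤ k) (w : ℕ → ℕ) (hw : Monotone w)
    (hgrowth : Filter.Tendsto (fun n : ℕ => (w n : ℝ) ^ (k + 1) / Real.log n)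
      Filter.atTop (nhds 0))
    (μ : Measure ℝ) [IsProbabilityMeasure μ]
    (hatom : ∀ x : ℝ, μ {x} = 0) (hsym : μ.map (fun x => -x) = μ) :
    ∀ᵐ J ∂(Measure.infinitePi fun _ : (Fin (k + 1) → ℤ) × Fin (k + 1) => μ),
      ∃ σ : (Fin (k + 1) → ℤ) → ℝ, {ρ | IsGroundState (horn k w) J ρ} = {σ, -σ} := by
  obtain ⟨c, N, hc, hcN, h0, h1⟩ := Pool.Agent.TH761.EA.two_windows μ hatom hsym
  filter_upwards [Pool.Agent.TH761.EB.gen_ae μ hatom ((Fin (k + 1) → ℤ) × Fin (k + 1)),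
    Run7.h654.EACut.pinsP μ hk (Run7.h654.EACut.longP_of_growth hw hgrowth) hc hcN h0 h1]
    with J hg hp
  obtain ⟨σ, hσ⟩ := Pool.Agent.TH761.EB.exists_gs (a := Pool.Agent.TH761.EB.aa)
    (b := Pool.Agent.TH761.EB.bb) (R := horn k w) Pool.Agent.TH761.EB.horn_fib
    (Pool.Agent.TH761.EB.horn_front hw) hg
  refine ⟨σ, ?_⟩
  ext ρ
  constructor
  · intro hρ
    refine Pool.Agent.TH761.EB.unique_horn (w := w) (J := J) hσ hρ fun n0 => ?_
    obtain ⟨z, hz, m, L, hL, hst, hT⟩ := hp n0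
    exact ⟨z, hz, fun τ hτ v v' hv hv' hv0 hv0' =>
      Run7.h654.EACut.pin_of_trP hk hc hcN hL hst hT hτ hv hv' hv0 hv0'⟩
  · rintro (h | h)
    · rw [h]; exact hσ
    · rw [h]; exact hσ.neg

end Pool.Agent.Results.MP_37ff18_mp.WiderHorns
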